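import Pool.Agent.L0h86.JS.Stm

/-!
# Module EQ7 of the project JS: the bordered system

The system of the split case is a system with the matrix `sy7`.
-/

set_option autoImplicit false

open scoped Classical

namespace Pool.Agent.L0h89.JS

open Finset
open Pool.Agent.Y703.CQ (nr)
open Pool.Agent.N916.GB (Po sy)
open Pool.Agent.L0h86.JS

theorem row2 (V : Finset ℕ) (v₀ : ℕ) (hV : ∀ p ∈ V, Po p) (hv : v₀ ∈ V)
    (h0 : ∑ p ∈ V, nr p 2 = 0) (x : ℕ → ZMod 2) :
    ∑ p ∈ insert 2 V, (x p + x 2) * sy7 v₀ 2 p = ∑ p ∈ V, x p * nr p 2 := by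
  have h2 : (2 : ℕ) ∉ V := fun h => (hV 2 h).2 rfl
  have hv2 : ¬ (2 = v₀) := fun h => h2 (h ▸ hv)
  rw [sum_insert h2, CharTwo.add_self_eq_zero, zero_mul, zero_add]
  have h3 : ∀ p ∈ V, (x p + x 2) * sy7 v₀ 2 p = x p * nr p 2 + x 2 * nr p 2 := by
    intro p hp
    have hp2 : p ≠ 2 := (hV p hp).2
    have h4 : sy7 v₀ 2 p = nr p 2 := by
      simp [sy7, sy, hp2, hv2]
    rw [h4]
    ring
  rw [sum_congr rfl h3, sum_add_distrib, ← mul_sum, h0, mul_zero, add_zero]

theorem rowq (V : Finset ℕ) (v₀ : ℕ) (hV : ∀ p ∈ V, Po p) (hv : v₀ ∈ V)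
    (h0 : ∑ p ∈ V, nr p 2 = 0) (x : ℕ → ZMod 2) (q : ℕ) (hq : q ∈ V) :
    ∑ p ∈ insert 2 V, (x p + x q) * sy7 v₀ q p =
      (∑ p ∈ V, (x p + x q) * nr p q + (x 2 + x v₀) * nr q 2) +
        (if q = v₀ then ∑ p ∈ V, x p * nr p 2 else 0) := by
  have h2 : (2 : ℕ) ∉ V := fun h => (hV 2 h).2 rfl
  have hv2 : ¬ (2 = v₀) := fun h => h2 (h ▸ hv)
  have hq2 : q ≠ 2 := (hV q hq).2
  rw [sum_insert h2]
  have h3 : sy7 v₀ q 2 = nr q 2 := by simp [sy7, sy, hv2]
  rw [h3]
  by_cases hqv : q = v₀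
  · subst hqv
    rw [if_pos rfl]
    have h4 : ∀ p ∈ V, (x p + x q) * sy7 q q p =
        (x p + x q) * nr p q + (x p * nr p 2 + x q * nr p 2) := by
      intro p hp
      have hp2 : p ≠ 2 := (hV p hp).2
      by_cases hpq : p = q
      · subst hpq
        rw [CharTwo.add_self_eq_zero, zero_mul, zero_mul, zero_add, CharTwo.add_self_eq_zero]
      · have h5 : sy7 q q p = nr p q + nr p 2 := by simp [sy7, sy, hp2, hpq]
        rw [h5]
        ring
    rw [sum_congr rfl h4, sum_add_distrib, sum_add_distrib, ← mul_sum, h0, mul_zero, add_zero]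
    ring
  · rw [if_neg hqv, add_zero]
    have h4 : ∀ p ∈ V, (x p + x q) * sy7 v₀ q p =
        (x p + x q) * nr p q + (if p = v₀ then (x p + x q) * nr q 2 else 0) := by
      intro p hp
      have hp2 : p ≠ 2 := (hV p hp).2
      by_cases hpv : p = v₀
      · have h5 : sy7 v₀ q p = nr p q + nr q 2 := by simp [sy7, sy, hp2, hqv, hpv, hq2, Ne.symm hv2]
        rw [h5, if_pos hpv]
        ring
      · have h5 : sy7 v₀ q p = nr p q := by simp [sy7, sy, hp2, hqv, hpv]
        rw [h5, if_neg hpv, add_zero]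
    rw [sum_congr rfl h4, sum_add_distrib, sum_ite_eq', if_pos hv]
    have h6 : x q * nr q 2 + x q * nr q 2 = 0 := CharTwo.add_self_eq_zero _
    linear_combination h6

theorem t_EQ7 : S_EQ7 := by
  intro V v₀ hV hv h0
  have h2 : (2 : ℕ) ∉ V := fun h => (hV 2 h).2 rfl
  have hv2 : ¬ (v₀ = 2) := fun h => h2 (h ▸ hv)
  constructor
  · intro hG x hx
    have hs : ∑ p ∈ V, x p * nr p 2 = 0 := by
      rw [← row2 V v₀ hV hv h0 x]
      exact hx 2 (mem_insert_self _ _)
    obtain ⟨h3, h4⟩ := hG x (x 2 + x v₀) (fun q hq => by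
      have h5 := hx q (mem_insert_of_mem hq)
      rw [rowq V v₀ hV hv h0 x q hq, hs] at h5
      simpa using h5) hs
    have h5 : x 2 = x v₀ := by
      have h6 : x v₀ + x v₀ = 0 := CharTwo.add_self_eq_zero _
      linear_combination h4 - h6
    have h6 : ∀ p ∈ insert 2 V, x p = x v₀ := by
      intro p hp
      rcases mem_insert.1 hp with rfl | hp
      · exact h5
      · exact h3 p hp v₀ hv
    intro p hp q hq
    rw [h6 p hp, h6 q hq]
  · intro hG y α hy hs
    let x : ℕ → ZMod 2 := fun p => if p = 2 then y v₀ + α else y p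
    have hxV : ∀ p ∈ V, x p = y p := by
      intro p hp
      have hp2 : p ≠ 2 := (hV p hp).2
      simp [x, hp2]
    have hx2 : x 2 = y v₀ + α := by simp [x]
    have hxs : ∑ p ∈ V, x p * nr p 2 = 0 := by
      rw [← hs]
      exact sum_congr rfl fun p hp => by rw [hxV p hp]
    have hA : ∀ q ∈ insert 2 V, ∑ p ∈ insert 2 V, (x p + x q) * sy7 v₀ q p = 0 := by
      intro q hq
      rcases mem_insert.1 hq with rfl | hq
      · rw [row2 V v₀ hV hv h0 x, hxs]
      · rw [rowq V v₀ hV hv h0 x q hq, hxs]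
        have h5 : ∑ p ∈ V, (x p + x q) * nr p q = ∑ p ∈ V, (y p + y q) * nr p q :=
          sum_congr rfl fun p hp => by rw [hxV p hp, hxV q hq]
        have h6 : x 2 + x v₀ = α := by
          rw [hx2, hxV v₀ hv]
          have h6 : y v₀ + y v₀ = 0 := CharTwo.add_self_eq_zero _
          linear_combination h6
        rw [h5, h6, hy q hq]
        simp
    have hC := hG x hA
    refine ⟨fun p hp q hq => ?_, ?_⟩
    · rw [← hxV p hp, ← hxV q hq]
      exact hC p (mem_insert_of_mem hp) q (mem_insert_of_mem hq)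
    · have h7 := hC 2 (mem_insert_self _ _) v₀ (mem_insert_of_mem hv)
      rw [hx2, hxV v₀ hv] at h7
      linear_combination h7

end Pool.Agent.L0h89.JS
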