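import Pool.Agent.L0h86.JS.Stm

/-!
# Module SM0 of the project JS: few sets have no small prime
-/

set_option autoImplicit false

open scoped Classical

namespace Pool.Agent.L0h89.JS

open Finset Filter
open Pool.Agent.Y703.CX (sm la eL zz)
open Pool.Agent.N973.ND (Pr SA)
open Pool.Agent.L0h86.JS

theorem zz_ge (n : ℕ) : ∃ X₁ : ℕ, ∀ X, X₁ ≤ X → n ≤ zz X := by
  have h1 : Tendsto (fun X : ℕ => zz X) atTop atTop := by
    unfold zz
    refine tendsto_nat_floor_atTop.comp (Real.tendsto_exp_atTop.comp ?_)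
    refine (tendsto_pow_atTop (by norm_num)).comp ?_
    exact Real.tendsto_log_atTop.comp (Real.tendsto_log_atTop.comp tendsto_natCast_atTop_atTop)
  obtain ⟨X₁, h⟩ := eventually_atTop.1 (h1.eventually (eventually_ge_atTop n))
  exact ⟨X₁, h⟩

/-- a number with a small proportion of coprime residues -/
theorem tot_small (δ : ℝ) (hδ : 0 < δ) : ∃ (A : Finset ℕ), (∀ p ∈ A, p.Prime) ∧
    ((∏ p ∈ A, p).totient : ℝ) ≤ δ * ((∏ p ∈ A, p : ℕ) : ℝ) := by
  have hs := not_summable_one_div_on_primes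
  rw [not_summable_iff_tendsto_nat_atTop_of_nonneg
    (fun n => Set.indicator_nonneg (fun _ _ => by positivity) n)] at hs
  obtain ⟨n, hn⟩ := (hs.eventually (eventually_ge_atTop (Real.log (1 / δ)))).exists
  refine ⟨(range n).filter Nat.Prime, fun p hp => (mem_filter.1 hp).2, ?_⟩
  set A := (range n).filter Nat.Prime with hA
  have hAp : ∀ p ∈ A, p.Prime := fun p hp => (mem_filter.1 hp).2
  have h1 : Real.log (1 / δ) ≤ ∑ p ∈ A, (1 : ℝ) / p := by
    refine hn.trans (le_of_eq ?_)
    rw [hA, sum_filter]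
    refine sum_congr rfl fun p _ => ?_
    by_cases hp : p.Prime
    · rw [if_pos hp, Set.indicator_of_mem (by exact hp)]
    · rw [if_neg hp, Set.indicator_of_notMem (by exact hp)]
  have h2 : (∏ p ∈ A, p).primeFactors = A := Nat.primeFactors_prod hAp
  have h3 := Nat.totient_eq_mul_prod_factors (∏ p ∈ A, p)
  rw [h2] at h3
  have h4 : ((∏ p ∈ A, p).totient : ℝ) =
      ((∏ p ∈ A, p : ℕ) : ℝ) * ∏ p ∈ A, (1 - (p : ℝ)⁻¹) := by
    have := congrArg (fun q : ℚ => (q : ℝ)) h3
    push_cast at this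
    push_cast
    exact this
  rw [h4, mul_comm]
  have h5 : ∏ p ∈ A, (1 - (p : ℝ)⁻¹) ≤ δ := by
    calc ∏ p ∈ A, (1 - (p : ℝ)⁻¹) ≤ ∏ p ∈ A, Real.exp (-((1 : ℝ) / p)) := by
          refine prod_le_prod (fun p hp => ?_) (fun p hp => ?_)
          · have : (1 : ℝ) ≤ p := by exact_mod_cast (hAp p hp).one_lt.le
            have := inv_le_one_of_one_le₀ this
            linarith
          · have := Real.add_one_le_exp (-((1 : ℝ) / p))
            rw [one_div] at this ⊢
            linarith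
      _ = Real.exp (-∑ p ∈ A, (1 : ℝ) / p) := by
          rw [← Real.exp_sum, sum_neg_distrib]
      _ ≤ Real.exp (-Real.log (1 / δ)) := Real.exp_le_exp.2 (by linarith)
      _ = δ := by
          rw [← Real.log_inv, one_div, inv_inv, Real.exp_log hδ]
  exact mul_le_mul_of_nonneg_right h5 (Nat.cast_nonneg _)

theorem t_SM0 : S_SM0 := by
  intro ε hε
  obtain ⟨A, hA, hQ⟩ := tot_small (ε / 2) (by positivity)
  set Q := ∏ p ∈ A, p with hQdef
  have hQ0 : 0 < Q := prod_pos fun p hp => (hA p hp).pos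
  obtain ⟨X₁, hX₁⟩ := zz_ge (A.sup id)
  obtain ⟨X₂, hX₂⟩ := exists_nat_ge ((ε / 2 + Q.totient) / (ε / 2))
  refine ⟨max X₁ X₂, fun X hX => ?_⟩
  have hz : A.sup id ≤ zz X := hX₁ X ((le_max_left _ _).trans hX)
  have h1 : ((SA X).filter fun S => sm (zz X) S = ∅).card ≤
      ((Ico 0 (0 + (X + 1))).filter (Q.Coprime ·)).card := by
    refine card_le_card_of_injOn (fun S => ∏ p ∈ S, p) ?_ ?_
    · intro S hS
      rw [mem_coe, mem_filter] at hS
      obtain ⟨hS, hsm⟩ := hS
      unfold SA at hS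
      rw [mem_filter] at hS
      obtain ⟨-, hS1, hS2⟩ := hS
      rw [mem_coe, mem_filter, mem_Ico]
      refine ⟨⟨Nat.zero_le _, by simpa using Nat.lt_succ_of_le hS2⟩, ?_⟩
      rw [hQdef]
      refine Nat.Coprime.prod_left fun p hp => Nat.Coprime.prod_right fun q hq => ?_
      refine (Nat.coprime_primes (hA p hp) (hS1 q hq).1).2 ?_
      rintro rfl
      have h2 : p ∈ sm (zz X) S := by
        unfold sm
        rw [mem_filter]
        exact ⟨hq, (le_sup (f := id) hp).trans hz⟩
      rw [hsm] at h2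
      exact absurd h2 (notMem_empty _)
    · intro S hS T hT hST
      rw [mem_coe, mem_filter] at hS hT
      unfold SA at hS hT
      rw [mem_filter] at hS hT
      have h2 := Nat.primeFactors_prod (fun p hp => (hS.1.2.1 p hp).1)
      have h3 := Nat.primeFactors_prod (fun p hp => (hT.1.2.1 p hp).1)
      rw [← h2, ← h3]
      exact congrArg Nat.primeFactors hST
  have h2 := Nat.Ico_filter_coprime_le 0 (X + 1) hQ0.ne'
  have h3 : (((X + 1) / Q : ℕ) : ℝ) ≤ ((X + 1 : ℕ) : ℝ) / Q := Nat.cast_div_le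
  have hQr : (0 : ℝ) < Q := by exact_mod_cast hQ0
  have h4 : (((SA X).filter fun S => sm (zz X) S = ∅).card : ℝ) ≤
      Q.totient * (((X + 1) / Q : ℕ) + 1) := by
    exact_mod_cast h1.trans h2
  have h5 : (X₂ : ℝ) ≤ X := by exact_mod_cast (le_max_right _ _).trans hX
  have h6 : (ε / 2 + Q.totient) / (ε / 2) ≤ X := hX₂.trans h5
  rw [div_le_iff₀ (by positivity)] at h6
  calc (((SA X).filter fun S => sm (zz X) S = ∅).card : ℝ)
      ≤ Q.totient * (((X + 1) / Q : ℕ) + 1) := h4
    _ ≤ Q.totient * (((X + 1 : ℕ) : ℝ) / Q + 1) := by gcongr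
    _ = Q.totient / Q * (X + 1) + Q.totient := by push_cast; field_simp
    _ ≤ ε / 2 * (X + 1) + Q.totient := by
        have h7 : (Q.totient : ℝ) / Q ≤ ε / 2 := by
          rw [div_le_iff₀ hQr]
          exact hQ
        have h8 : (0 : ℝ) ≤ (X : ℝ) + 1 := by positivity
        have h9 := mul_le_mul_of_nonneg_right h7 h8
        linarith
    _ ≤ ε * X := by linarith

end Pool.Agent.L0h89.JS
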